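import Pool.Agent.V7H55.FP.Defs4
import Pool.Agent.V7H70.FP.D2

set_option autoImplicit false

/-!
# C4: norms over a field with Galois group `ℤ_2`
-/

namespace Pool.Agent.V7H39.FP

open Pool.Agent.V7H55.FP Pool.Agent.V7H70.FP

/-- the first binary digit -/
def d0 (a : ZMod (2 ^ 2)) : ZMod 2 := (a.val : ZMod 2)

/-- the second binary digit -/
def d1 (a : ZMod (2 ^ 2)) : ZMod 2 := if a.val = 2 ∨ a.val = 3 then 1 else 0

lemma d1_add : ∀ a b : ZMod (2 ^ 2), d1 (a + b) = d1 a + d1 b + d0 a * d0 b := by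
  decide

lemma d0_cast (m : ℕ) : d0 (m : ZMod (2 ^ 2)) = (m : ZMod 2) := by
  unfold d0
  rw [ZMod.val_natCast, ZMod.natCast_eq_natCast_iff]
  exact (Nat.mod_modEq m (2 ^ 2)).of_dvd (by norm_num)

/-- homomorphisms `ℤ_2 → ZMod 2` -/
lemma hom_eq (f : PadicInt 2 →+ ZMod 2) (x : PadicInt 2) :
    f x = d0 (PadicInt.toZModPow 2 x) * f 1 := by
  have h := PadicInt.appr_spec 2 x
  rw [Ideal.mem_span_singleton'] at h
  obtain ⟨z, hz⟩ := h
  have hx : x = (x.appr 2 : PadicInt 2) + 4 * z := by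
    have : x - (x.appr 2 : PadicInt 2) = 4 * z := by
      rw [← hz]
      push_cast
      ring
    rw [← this]; ring
  obtain ⟨m, hm⟩ : ∃ m : ℕ, m = x.appr 2 := ⟨_, rfl⟩
  rw [← hm] at hx
  have h4 : f (4 * z) = 0 := by
    have : (4 : PadicInt 2) * z = (2 : ℕ) • ((2 : PadicInt 2) * z) := by
      rw [nsmul_eq_mul]; push_cast; ring
    rw [this, map_nsmul, nsmul_eq_mul]
    have : ((2 : ℕ) : ZMod 2) = 0 := by decide
    rw [this, zero_mul]
  have hfx : f x = (m : ZMod 2) * f 1 := by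
    rw [hx, map_add, h4, add_zero]
    have : ((m : ℕ) : PadicInt 2) = m • (1 : PadicInt 2) := by rw [nsmul_eq_mul, mul_one]
    rw [this, map_nsmul, nsmul_eq_mul]
  rw [hfx]
  congr 1
  rw [← d0_cast]
  congr 1
  rw [hx, map_add, map_natCast, map_mul]
  have : PadicInt.toZModPow (p := 2) 2 (4 : PadicInt 2) = 0 := by
    have e : (4 : PadicInt 2) = ((4 : ℕ) : PadicInt 2) := by norm_num
    rw [e, map_natCast]
    decide
  rw [this, zero_mul, add_zero]

/-- the digits are locally constant -/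
lemma nhds_ker : {x : PadicInt 2 | PadicInt.toZModPow 2 x = 0} ∈ nhds (0 : PadicInt 2) := by
  have h1 : Metric.ball (0 : PadicInt 2) ((2 : ℝ) ^ (-(2 : ℤ))) ⊆
      {x : PadicInt 2 | PadicInt.toZModPow 2 x = 0} := by
    intro x hx
    rw [mem_ball_zero_iff] at hx
    have h2 : x ∈ (Ideal.span {((2 : ℕ) : PadicInt 2) ^ 2} : Ideal (PadicInt 2)) := by
      rw [← PadicInt.norm_le_pow_iff_mem_span_pow]
      exact_mod_cast hx.le
    rw [← PadicInt.ker_toZModPow] at h2
    exact h2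
  exact Filter.mem_of_superset (Metric.ball_mem_nhds _ (by positivity)) h1

theorem t_C4 : S_C4 := by
  intro F K _ _ _ _ h2 hsq H hH ⟨φ⟩ α β hα hβ hα2 hβ2
  classical
  -- characters
  have char : ∀ γ : K, γ ≠ 0 → Fx H (γ ^ 2) → (Fx H γ ∨
      ∀ h : H, sg γ (h : K ≃ₐ[F] K) =
        d0 (PadicInt.toZModPow 2 (Multiplicative.toAdd (φ h)))) := by
    intro γ hγ hγ2
    have hmul : ∀ g ∈ H, ∀ h ∈ H, sg γ (g * h) = sg γ g + sg γ h := by
      intro g hg h hh
      have hne := neg_ne_self_of h2 hγ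
      rcases smul_eq_or_neg hγ2 hg with e1 | e1 <;> rcases smul_eq_or_neg hγ2 hh with e2 | e2
      · have e3 : (g * h) • γ = γ := by rw [mul_smul, e2, e1]
        rw [sg_eq_zero e3, sg_eq_zero e1, sg_eq_zero e2]; rfl
      · have e3 : (g * h) • γ ≠ γ := by rw [mul_smul, e2, smul_neg, e1]; exact hne
        have e4 : h • γ ≠ γ := by rw [e2]; exact hne
        rw [sg_eq_one e3, sg_eq_zero e1, sg_eq_one e4]; rfl
      · have e3 : (g * h) • γ ≠ γ := by rw [mul_smul, e2, e1]; exact hne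
        have e4 : g • γ ≠ γ := by rw [e1]; exact hne
        rw [sg_eq_one e3, sg_eq_one e4, sg_eq_zero e2]; rfl
      · have e3 : (g * h) • γ = γ := by rw [mul_smul, e2, smul_neg, e1, neg_neg]
        have e4 : g • γ ≠ γ := by rw [e1]; exact hne
        have e5 : h • γ ≠ γ := by rw [e2]; exact hne
        rw [sg_eq_zero e3, sg_eq_one e4, sg_eq_one e5]; rfl
    let f : PadicInt 2 →+ ZMod 2 := AddMonoidHom.mk'
      (fun x => sg γ ((φ.symm (Multiplicative.ofAdd x) : H) : K ≃ₐ[F] K)) (by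
        intro x y
        rw [ofAdd_add, map_mul, Subgroup.coe_mul]
        exact hmul _ (φ.symm _).2 _ (φ.symm _).2)
    have hf : ∀ h : H, sg γ (h : K ≃ₐ[F] K) = f (Multiplicative.toAdd (φ h)) := by
      intro h
      show _ = sg γ ((φ.symm (Multiplicative.ofAdd (Multiplicative.toAdd (φ h))) : H) : K ≃ₐ[F] K)
      rw [ofAdd_toAdd, ContinuousMulEquiv.symm_apply_apply]
    rcases zmod2_cases (f 1) with h0 | h1
    · left
      intro h hh
      by_contra hcon
      have e := hf ⟨h, hh⟩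
      rw [hom_eq, h0, mul_zero, sg_eq_one hcon] at e
      exact absurd e (by decide)
    · right
      intro h
      rw [hf, hom_eq, h1, mul_one]
  have h20 : (2 : K) ≠ 0 := h2
  rcases char α hα hα2 with hA | hA
  · -- `α` is fixed
    refine ⟨(β ^ 2 + 1) / 2, (β ^ 2 - 1) / (2 * α), ?_, ?_, ?_⟩
    · intro u hu
      have e1 := hβ2 u hu
      rw [smul_div₀', smul_add, e1, smul_one]
      congr 1
      exact map_ofNat u 2
    · intro u hu
      have e1 := hβ2 u hu
      have e2 := hA u hu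
      rw [smul_div₀', smul_sub, e1, smul_one, smul_mul', e2]
      congr 2
      exact map_ofNat u 2
    · field_simp
      ring
  rcases char β hβ hβ2 with hB | hB
  · refine ⟨β, 0, hB, ?_, by ring⟩
    intro u _
    exact smul_zero u
  -- both are the first digit
  refine t_D2 F K h2 hsq H hH α β hα hβ hα2 hβ2
    (fun g => if hg : g ∈ H then d1 (PadicInt.toZModPow 2 (Multiplicative.toAdd (φ ⟨g, hg⟩)))
      else 0) ?_ ?_
  · -- locally constant
    have hcont : Continuous fun h : H => Multiplicative.toAdd (φ h) :=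
      continuous_toAdd.comp φ.continuous_toFun
    have hpre : (fun h : H => Multiplicative.toAdd (φ h)) ⁻¹'
        {x : PadicInt 2 | PadicInt.toZModPow 2 x = 0} ∈ nhds (1 : H) := by
      apply hcont.continuousAt.preimage_mem_nhds
      simp only [map_one, toAdd_one]
      exact nhds_ker
    rw [nhds_subtype_eq_comap, Filter.mem_comap] at hpre
    obtain ⟨t, ht, hsub⟩ := hpre
    rw [OneMemClass.coe_one, krullTopology_mem_nhds_one_iff] at ht
    obtain ⟨L, hL, hLt⟩ := ht
    refine ⟨L.fixingSubgroup, IntermediateField.fixingSubgroup_isOpen L, ?_⟩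
    intro h hh w hw hwL
    have h3 : PadicInt.toZModPow 2 (Multiplicative.toAdd (φ ⟨w, hw⟩)) = 0 :=
      hsub (a := ⟨w, hw⟩) (hLt hwL)
    have h4 : φ ⟨h * w, H.mul_mem hh hw⟩ = φ ⟨h, hh⟩ * φ ⟨w, hw⟩ := by
      rw [← map_mul]; rfl
    simp only [H.mul_mem hh hw, hh, dif_pos, h4, toAdd_mul, map_add, h3, add_zero]
  · intro g hg h hh
    have h4 : φ ⟨g * h, H.mul_mem hg hh⟩ = φ ⟨g, hg⟩ * φ ⟨h, hh⟩ := by
      rw [← map_mul]; rfl
    simp only [H.mul_mem hg hh, hg, hh, dif_pos, h4, toAdd_mul, map_add, d1_add]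
    rw [hB ⟨g, hg⟩, hA ⟨h, hh⟩]

end Pool.Agent.V7H39.FP
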